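import Pool.Agent.Helper1.RK.StD

/-!
# Project RK: module LAM (extension of the coefficient field)
-/

set_option autoImplicit false

namespace Pool.Agent.Helper44.RK

open Polynomial Pool.Agent.Helper1.RK

theorem pLAM : StLAM := by
  intro k L _ _ _
  have hinj : Function.Injective (algebraMap k L) := (algebraMap k L).injective
  have hmi : Function.Injective (Polynomial.mapRingHom (algebraMap k L)) := by
    intro p q h
    exact Polynomial.map_injective _ hinj h
  have hle : nonZeroDivisors k[X] ≤
      (nonZeroDivisors L[X]).comap (Polynomial.mapRingHom (algebraMap k L)) := by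
    intro p hp
    rw [Submonoid.mem_comap, mem_nonZeroDivisors_iff_ne_zero]
    rw [mem_nonZeroDivisors_iff_ne_zero] at hp
    intro h0
    exact hp (hmi (by rw [h0, map_zero]))
  have hdiv : ∀ p q : k[X], RatFunc.mapRingHom (Polynomial.mapRingHom (algebraMap k L)) hle
      (algebraMap k[X] (RatFunc k) p / algebraMap k[X] (RatFunc k) q) =
      algebraMap L[X] (RatFunc L) (p.map (algebraMap k L)) /
        algebraMap L[X] (RatFunc L) (q.map (algebraMap k L)) := by
    intro p q
    rw [RatFunc.coe_mapRingHom_eq_coe_map]
    exact RatFunc.map_apply_div _ _ _ _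
  have hpol : ∀ p : k[X], RatFunc.mapRingHom (Polynomial.mapRingHom (algebraMap k L)) hle
      (algebraMap k[X] (RatFunc k) p) = algebraMap L[X] (RatFunc L) (p.map (algebraMap k L)) := by
    intro p
    have h := hdiv p 1
    rwa [map_one, div_one, Polynomial.map_one, map_one, div_one] at h
  refine ⟨RatFunc.mapRingHom (Polynomial.mapRingHom (algebraMap k L)) hle, ?_, ?_, ?_, ?_⟩
  · rw [← RatFunc.algebraMap_X, hpol, Polynomial.map_X, RatFunc.algebraMap_X]
  · intro a
    rw [← RatFunc.algebraMap_C, hpol, Polynomial.map_C, RatFunc.algebraMap_C]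
  · intro g
    constructor
    · rintro ⟨a, ha⟩
      have hg : g = algebraMap k[X] (RatFunc k) g.num / algebraMap k[X] (RatFunc k) g.denom :=
        (RatFunc.num_div_denom g).symm
      have hd0 : g.denom ≠ 0 := RatFunc.denom_ne_zero g
      have hdm : g.denom.Monic := RatFunc.monic_denom g
      have hdL : algebraMap L[X] (RatFunc L) (g.denom.map (algebraMap k L)) ≠ 0 :=
        RatFunc.algebraMap_ne_zero fun h0 => hd0 ((Polynomial.map_eq_zero_iff hinj).1 h0)
      rw [hg, hdiv, div_eq_iff hdL, ← RatFunc.algebraMap_C, ← map_mul] at ha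
      have ha2 := RatFunc.algebraMap_injective L ha
      have hc : a = algebraMap k L (g.num.coeff g.denom.natDegree) := by
        have h1 := congrArg (fun p => Polynomial.coeff p g.denom.natDegree) ha2
        simp only [Polynomial.coeff_map, Polynomial.coeff_C_mul] at h1
        rw [hdm.coeff_natDegree, map_one, mul_one] at h1
        exact h1.symm
      have h2 : g.num = Polynomial.C (g.num.coeff g.denom.natDegree) * g.denom := by
        apply hmi
        rw [Polynomial.coe_mapRingHom, ha2, Polynomial.map_mul, Polynomial.map_C, ← hc]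
      refine ⟨g.num.coeff g.denom.natDegree, ?_⟩
      have hdk : algebraMap k[X] (RatFunc k) g.denom ≠ 0 :=
        RatFunc.algebraMap_ne_zero hd0
      have h3 : algebraMap k[X] (RatFunc k) g.num / algebraMap k[X] (RatFunc k) g.denom =
          RatFunc.C (g.num.coeff g.denom.natDegree) := by
        rw [div_eq_iff hdk, ← RatFunc.algebraMap_C, ← map_mul]
        exact congrArg _ h2
      exact hg.trans h3
    · rintro ⟨a, rfl⟩
      refine ⟨algebraMap k L a, ?_⟩
      rw [← RatFunc.algebraMap_C, hpol, Polynomial.map_C, RatFunc.algebraMap_C]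
  · rintro σ hσ S ⟨hS1, hS2⟩ g
    have hSp : ∀ p : k[X], S (algebraMap L[X] (RatFunc L) (p.map (algebraMap k L))) =
        algebraMap L[X] (RatFunc L) (p.map (algebraMap k L)) := by
      intro p
      induction p using Polynomial.induction_on' with
      | add p q hp hq => rw [Polynomial.map_add, map_add, map_add, hp, hq]
      | monomial n a =>
        rw [Polynomial.map_monomial, ← Polynomial.C_mul_X_pow_eq_monomial, map_mul, map_pow,
          RatFunc.algebraMap_X, RatFunc.algebraMap_C, map_mul, map_pow]
        rw [hS1, hS2, hσ]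
    rw [← RatFunc.num_div_denom g, hdiv, map_div₀, hSp, hSp]

end Pool.Agent.Helper44.RK
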