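import Pool.Agent.Helper1.RK.StF

/-!
# Project RK, module POL: poles of `w`
-/

set_option autoImplicit false

namespace Pool.Agent.Helper44.RK

open Pool.Agent.Helper1.RK
open Polynomial

section

variable {L : Type} [Field L]

private def Val (p : L) (g : RatFunc L) (a : L) : Prop := Reg p g ∧ ev p g = a

private theorem val_C (h2 : StREG) (p a : L) : Val p (RatFunc.C a) a := (h2 L p).2.2.2.2.1 a

private theorem val_X (h2 : StREG) (p : L) : Val p (RatFunc.X : RatFunc L) p :=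
  (h2 L p).2.2.2.2.2.1

private theorem val_add (h2 : StREG) {p : L} {g h : RatFunc L} {a b : L} (hg : Val p g a)
    (hh : Val p h b) : Val p (g + h) (a + b) := by
  have := (h2 L p).2.2.2.2.2.2.1 g h hg.1 hh.1
  exact ⟨this.1, by rw [this.2.1, hg.2, hh.2]⟩

private theorem val_mul (h2 : StREG) {p : L} {g h : RatFunc L} {a b : L} (hg : Val p g a)
    (hh : Val p h b) : Val p (g * h) (a * b) := by
  have := (h2 L p).2.2.2.2.2.2.1 g h hg.1 hh.1
  exact ⟨this.2.2.1, by rw [this.2.2.2.1, hg.2, hh.2]⟩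

private theorem val_sub (h2 : StREG) {p : L} {g h : RatFunc L} {a b : L} (hg : Val p g a)
    (hh : Val p h b) : Val p (g - h) (a - b) := by
  have := (h2 L p).2.2.2.2.2.2.1 g h hg.1 hh.1
  exact ⟨this.2.2.2.2.1, by rw [this.2.2.2.2.2, hg.2, hh.2]⟩

private theorem val_one (h2 : StREG) (p : L) : Val p (1 : RatFunc L) 1 := by
  have := val_C h2 p (1 : L)
  rwa [map_one] at this

private theorem val_two (h2 : StREG) (p : L) : Val p (2 : RatFunc L) 2 := by
  have := val_C h2 p (2 : L)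
  rwa [map_ofNat] at this

private theorem val_pow (h2 : StREG) {p : L} {g : RatFunc L} {a : L} (hg : Val p g a) (n : ℕ) :
    Val p (g ^ n) (a ^ n) := by
  induction n with
  | zero => simpa using val_one h2 p
  | succ n ih => rw [pow_succ, pow_succ]; exact val_mul h2 ih hg

private theorem val_unit (h2 : StREG) {p : L} {g : RatFunc L} {a : L} (hg : Val p g a)
    (ha : a ≠ 0) : g ≠ 0 ∧ ord p g = 0 := by
  have h4 := (h2 L p).2.2.2.1 g hg.1
  have h3 := ((h2 L p).2.1 g).1 hg.1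
  have hn : ¬ (g = 0 ∨ 1 ≤ ord p g) := by
    rw [← h4, hg.2]; exact ha
  push Not at hn
  refine ⟨hn.1, ?_⟩
  rcases h3 with h3 | h3
  · exact absurd h3 hn.1
  · omega

private theorem unit_val (h2 : StREG) {p : L} {g : RatFunc L} (hg : g ≠ 0) (h0 : ord p g = 0) :
    ∃ a, a ≠ 0 ∧ Val p g a := by
  have h3 : Reg p g := ((h2 L p).2.1 g).2 (Or.inr h0.ge)
  refine ⟨ev p g, ?_, h3, rfl⟩
  intro h
  rcases ((h2 L p).2.2.2.1 g h3).1 h with h | h
  · exact hg h
  · omega

private theorem ord_wei (h1 : StORD) (h2 : StREG) {p : L} {w : RatFunc L} (a b : L) (hw : w ≠ 0)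
    (ho : ord p w < 0) : wei a b w ≠ 0 ∧ ord p (wei a b w) = 3 * ord p w := by
  have hi : ord p w⁻¹ = - ord p w := (h1 L p).2.2.1 w
  have hi0 : w⁻¹ ≠ 0 := inv_ne_zero hw
  have hr : Reg p w⁻¹ := ((h2 L p).2.1 _).2 (Or.inr (by omega))
  have hv : Val p w⁻¹ 0 := ⟨hr, ((h2 L p).2.2.2.1 _ hr).2 (Or.inr (by omega))⟩
  have hg : Val p (1 + RatFunc.C a * w⁻¹ ^ 2 + RatFunc.C b * w⁻¹ ^ 3) (1 + a * 0 ^ 2 + b * 0 ^ 3) :=
    val_add h2 (val_add h2 (val_one h2 p) (val_mul h2 (val_C h2 p a) (val_pow h2 hv 2)))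
      (val_mul h2 (val_C h2 p b) (val_pow h2 hv 3))
  have hu := val_unit h2 hg (by simp)
  have he : wei a b w = w ^ 3 * (1 + RatFunc.C a * w⁻¹ ^ 2 + RatFunc.C b * w⁻¹ ^ 3) := by
    unfold wei
    field_simp
  rw [he]
  refine ⟨mul_ne_zero (pow_ne_zero _ hw) hu.1, ?_⟩
  rw [(h1 L p).2.1 _ _ (pow_ne_zero _ hw) hu.1, (h1 L p).2.2.2.2.1, hu.2]
  push_cast
  ring

private theorem Dt_poly (Dt : Derivation ℤ (RatFunc L) (RatFunc L)) (h : Over 0 1 Dt) (P : L[X]) :
    Dt (algebraMap L[X] (RatFunc L) P) = algebraMap L[X] (RatFunc L) (derivative P) := by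
  induction P using Polynomial.induction_on' with
  | add p q hp hq => simp [hp, hq]
  | monomial n a =>
    have hC : Dt (RatFunc.C a) = 0 := by rw [h.1]; simp
    rw [← Polynomial.C_mul_X_pow_eq_monomial, Polynomial.derivative_C_mul_X_pow]
    simp only [map_mul, map_pow, RatFunc.algebraMap_C, RatFunc.algebraMap_X, Derivation.leibniz,
      Derivation.leibniz_pow, h.2, hC, smul_eq_mul, map_natCast, nsmul_eq_mul]
    ring

private theorem coeff_E (P : L[X]) (k : ℕ) : (X * derivative P).coeff k = k * P.coeff k := by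
  cases k with
  | zero => simp
  | succ k => rw [coeff_X_mul, coeff_derivative]; push_cast; ring

private theorem nd_E (P : L[X]) : (X * derivative P).natDegree ≤ P.natDegree := by
  rw [natDegree_le_iff_coeff_eq_zero]
  intro k hk
  rw [coeff_E, coeff_eq_zero_of_natDegree_lt hk, mul_zero]

private theorem poly_part [CharZero L] (P Q : L[X]) (j γ : L) (hγ : γ ≠ 0)
    (hQ : Q.Monic) (hlt : Q.natDegree < P.natDegree)
    (h : (derivative P * Q - P * derivative Q) ^ 2 * (X ^ 3 + C j * X + C j) =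
      C γ * (Q * (P ^ 3 + C j * P * Q ^ 2 + C j * Q ^ 3))) :
    P.natDegree = Q.natDegree + 1 ∧ P.leadingCoeff = γ⁻¹ := by
  set m := P.natDegree with hm
  set q := Q.natDegree with hq
  set a := P.leadingCoeff with ha
  have hP0 : P ≠ 0 := by
    rintro rfl
    simp at hm
    omega
  have ha0 : a ≠ 0 := leadingCoeff_ne_zero.2 hP0
  have hQ1 : Q.coeff q = 1 := hQ
  have hPa : P.coeff m = a := rfl
  set A := X * derivative P * Q - P * (X * derivative Q) with hA
  have h' : A ^ 2 * (X ^ 3 + C j * X + C j) =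
      C γ * (X ^ 2 * (Q * (P ^ 3 + C j * P * Q ^ 2 + C j * Q ^ 3))) := by
    have : A = X * (derivative P * Q - P * derivative Q) := by rw [hA]; ring
    rw [this]
    linear_combination X ^ 2 * h
  have hAd : A.natDegree ≤ m + q := by
    rw [hA]
    refine (natDegree_sub_le _ _).trans (max_le ?_ ?_)
    · exact natDegree_mul_le.trans (Nat.add_le_add (nd_E P) le_rfl)
    · exact natDegree_mul_le.trans (Nat.add_le_add le_rfl (nd_E Q))
  have hAc : A.coeff (m + q) = ((m : L) - q) * a := by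
    rw [hA, coeff_sub, coeff_mul_add_eq_of_natDegree_le (nd_E P) le_rfl,
      coeff_mul_add_eq_of_natDegree_le le_rfl (nd_E Q), coeff_E, coeff_E, ← hm, ← hq, hPa, hQ1]
    ring
  have hmq : ((m : L) - q) ≠ 0 := by
    rw [sub_ne_zero]
    exact_mod_cast hlt.ne'
  have hfd : (X ^ 3 + C j * X + C j : L[X]).natDegree ≤ 3 := by compute_degree
  have hfc : (X ^ 3 + C j * X + C j : L[X]).coeff 3 = 1 := by
    simp
  have hA2d : (A ^ 2).natDegree ≤ 2 * (m + q) := natDegree_pow_le_of_le 2 hAd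
  have hA2c : (A ^ 2).coeff (2 * (m + q)) = (((m : L) - q) * a) ^ 2 := by
    rw [coeff_pow_of_natDegree_le hAd, hAc]
  have hLd : (A ^ 2 * (X ^ 3 + C j * X + C j)).natDegree ≤ 2 * (m + q) + 3 :=
    natDegree_mul_le.trans (Nat.add_le_add hA2d hfd)
  have hLc : (A ^ 2 * (X ^ 3 + C j * X + C j)).coeff (2 * (m + q) + 3) =
      (((m : L) - q) * a) ^ 2 := by
    rw [coeff_mul_add_eq_of_natDegree_le hA2d hfd, hA2c, hfc, mul_one]
  -- right side
  have hRd1 : (P ^ 3 + C j * P * Q ^ 2 + C j * Q ^ 3).natDegree ≤ 3 * m := by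
    have e1 : (P ^ 3).natDegree ≤ 3 * m := natDegree_pow_le_of_le 3 le_rfl
    have e2 : (C j * P * Q ^ 2).natDegree ≤ 3 * m := by
      refine natDegree_mul_le.trans ?_
      have := natDegree_C_mul_le j P
      have e3 : (Q ^ 2).natDegree ≤ 2 * q := natDegree_pow_le_of_le 2 le_rfl
      omega
    have e3 : (C j * Q ^ 3).natDegree ≤ 3 * m := by
      refine (natDegree_C_mul_le _ _).trans ?_
      have e3 : (Q ^ 3).natDegree ≤ 3 * q := natDegree_pow_le_of_le 3 le_rfl
      omega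
    exact (natDegree_add_le _ _).trans (max_le ((natDegree_add_le _ _).trans (max_le e1 e2)) e3)
  have hRc1 : (P ^ 3 + C j * P * Q ^ 2 + C j * Q ^ 3).coeff (3 * m) = a ^ 3 := by
    have e1 : (P ^ 3).coeff (3 * m) = a ^ 3 := by
      rw [coeff_pow_of_natDegree_le le_rfl]
      rfl
    have e2 : (C j * P * Q ^ 2).coeff (3 * m) = 0 := by
      apply coeff_eq_zero_of_natDegree_lt
      refine natDegree_mul_le.trans_lt ?_
      have := natDegree_C_mul_le j P
      have e3 : (Q ^ 2).natDegree ≤ 2 * q := natDegree_pow_le_of_le 2 le_rfl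
      omega
    have e3 : (C j * Q ^ 3).coeff (3 * m) = 0 := by
      apply coeff_eq_zero_of_natDegree_lt
      refine (natDegree_C_mul_le _ _).trans_lt ?_
      have e3 : (Q ^ 3).natDegree ≤ 3 * q := natDegree_pow_le_of_le 3 le_rfl
      omega
    rw [coeff_add, coeff_add, e1, e2, e3, add_zero, add_zero]
  have hRd2 : (Q * (P ^ 3 + C j * P * Q ^ 2 + C j * Q ^ 3)).natDegree ≤ q + 3 * m :=
    natDegree_mul_le.trans (Nat.add_le_add le_rfl hRd1)
  have hRc2 : (Q * (P ^ 3 + C j * P * Q ^ 2 + C j * Q ^ 3)).coeff (q + 3 * m) = a ^ 3 := by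
    rw [coeff_mul_add_eq_of_natDegree_le le_rfl hRd1, hRc1, ← hq, hQ1, one_mul]
  have hX2 : (X ^ 2 : L[X]).natDegree ≤ 2 := natDegree_X_pow_le 2
  have hRd3 : (X ^ 2 * (Q * (P ^ 3 + C j * P * Q ^ 2 + C j * Q ^ 3))).natDegree ≤
      2 + (q + 3 * m) := natDegree_mul_le.trans (Nat.add_le_add hX2 hRd2)
  have hRc3 : (X ^ 2 * (Q * (P ^ 3 + C j * P * Q ^ 2 + C j * Q ^ 3))).coeff (2 + (q + 3 * m)) =
      a ^ 3 := by
    rw [coeff_mul_add_eq_of_natDegree_le hX2 hRd2, hRc2, coeff_X_pow]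
    simp
  have hRd : (C γ * (X ^ 2 * (Q * (P ^ 3 + C j * P * Q ^ 2 + C j * Q ^ 3)))).natDegree ≤
      2 + (q + 3 * m) := (natDegree_C_mul_le _ _).trans hRd3
  have hRc : (C γ * (X ^ 2 * (Q * (P ^ 3 + C j * P * Q ^ 2 + C j * Q ^ 3)))).coeff
      (2 + (q + 3 * m)) = γ * a ^ 3 := by
    rw [coeff_C_mul, hRc3]
  have hd : 2 * (m + q) + 3 = 2 + (q + 3 * m) := by
    have e1 := natDegree_eq_of_le_of_coeff_ne_zero hLd
      (by rw [hLc]; exact pow_ne_zero _ (mul_ne_zero hmq ha0))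
    have e2 := natDegree_eq_of_le_of_coeff_ne_zero hRd
      (by rw [hRc]; exact mul_ne_zero hγ (pow_ne_zero _ ha0))
    rw [h'] at e1
    omega
  have hm1 : m = q + 1 := by omega
  refine ⟨hm1, ?_⟩
  rw [h', hd, hRc, hm1] at hLc
  have h3 : γ * a ^ 3 = a ^ 2 := by
    rw [hLc]
    push_cast
    ring
  have h4 : a ^ 2 * (γ * a - 1) = 0 := by linear_combination h3
  have h5 : γ * a - 1 = 0 := by
    rcases mul_eq_zero.1 h4 with h | h
    · exact absurd h (pow_ne_zero _ ha0)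
    · exact h
  refine eq_inv_of_mul_eq_one_left ?_
  linear_combination h5

end

/-- **POL** (poles of `w`). -/
theorem pPOL (h1 : StORD) (h2 : StREG) (_h3 : StDER) (h4 : StLCD) (_h5 : StTOP) : StPOL := by
  intro L _ _ Dt j γ w hO hγ hw hrel
  have hw0 : w ≠ 0 := by
    rintro rfl
    exact hw ⟨0, by simp⟩
  have hCγ : (RatFunc.C γ : RatFunc L) ≠ 0 := by
    intro h
    exact hγ (RatFunc.C_injective (by rw [h, map_zero]))
  have hvf : ∀ p : L, Val p (wei j j RatFunc.X) (p ^ 3 + j * p + j) := fun p =>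
    val_add h2 (val_add h2 (val_pow h2 (val_X h2 p) 3) (val_mul h2 (val_C h2 p j) (val_X h2 p)))
      (val_C h2 p j)
  -- the relation of orders
  have key : ∀ p : L, ¬ Reg p w → wei j j RatFunc.X ≠ (0 : RatFunc L) →
      ord p w = ord p (wei j j RatFunc.X) - 2 := by
    intro p hp hf0
    have hp' := ((h2 L p).2.2.1 w).1 hp
    have hd := (h4 L p Dt hO).2.1 w hw0 (by omega)
    have hwei := ord_wei h1 h2 j j hw0 hp'.2
    have e := congrArg (ord p) hrel
    rw [(h1 L p).2.1 _ _ (pow_ne_zero _ hd.1) hf0, (h1 L p).2.1 _ _ hCγ hwei.1,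
      (h1 L p).2.2.2.2.1, hd.2, hwei.2, (h1 L p).2.2.2.2.2.2.2.1] at e
    push_cast at e
    omega
  have hu : ∀ p : L, Val p (RatFunc.X - RatFunc.C p) 0 := by
    intro p
    have := val_sub h2 (val_X h2 p) (val_C h2 p p)
    rwa [sub_self] at this
  have hu0 : ∀ p : L, (RatFunc.X - RatFunc.C p : RatFunc L) ≠ 0 := by
    intro p h
    have h1' := (h1 L p).2.2.2.2.2.2.2.2.1
    rw [h, show (0 : RatFunc L) = RatFunc.C 0 by simp, (h1 L p).2.2.2.2.2.2.2.1] at h1'
    norm_num at h1'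
  have huo : ∀ p : L, ord p (RatFunc.X - RatFunc.C p) = 1 := fun p =>
    (h1 L p).2.2.2.2.2.2.2.2.1
  have hDu : ∀ p : L, Dt (RatFunc.X - RatFunc.C p) = 1 := by
    intro p
    rw [map_sub, hO.1, hO.2]
    simp
  have hDreg : ∀ (p : L) (g : RatFunc L), Reg p g → Reg p (Dt g) := by
    intro p g hg
    exact (((h4 L p Dt hO).1 0 1 Dt hO (val_one h2 p).1).1 g hg).1
  refine ⟨?_, ?_, ?_⟩
  · intro p hp hfp
    have hf := val_unit h2 (hvf p) hfp
    have ho : ord p w = -2 := by rw [key p hp hf.1, hf.2]; norm_num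
    set W := (RatFunc.X - RatFunc.C p) ^ 2 * w with hW
    have hW0 : W ≠ 0 := mul_ne_zero (pow_ne_zero _ (hu0 p)) hw0
    have hWo : ord p W = 0 := by
      rw [hW, (h1 L p).2.1 _ _ (pow_ne_zero _ (hu0 p)) hw0, (h1 L p).2.2.2.2.1, huo, ho]
      norm_num
    obtain ⟨a, ha0, hWa⟩ := unit_val h2 hW0 hWo
    refine ⟨ho, hWa.1, ?_⟩
    rw [hWa.2]
    have hDW : Dt W = (RatFunc.X - RatFunc.C p) ^ 2 * Dt w +
        2 * (RatFunc.X - RatFunc.C p) * w := by
      rw [hW, Derivation.leibniz, Derivation.leibniz_pow, hDu]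
      simp only [smul_eq_mul, nsmul_eq_mul]
      push_cast
      ring
    have hid : ((RatFunc.X - RatFunc.C p) * Dt W - 2 * W) ^ 2 * wei j j RatFunc.X =
        RatFunc.C γ * (W ^ 3 + RatFunc.C j * W * (RatFunc.X - RatFunc.C p) ^ 4 +
          RatFunc.C j * (RatFunc.X - RatFunc.C p) ^ 6) := by
      have e1 : (RatFunc.X - RatFunc.C p) * Dt W - 2 * W =
          (RatFunc.X - RatFunc.C p) ^ 3 * Dt w := by
        rw [hDW, hW]; ring
      rw [e1, hW]
      have e2 := hrel
      rw [show wei j j w = w ^ 3 + RatFunc.C j * w + RatFunc.C j from rfl] at e2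
      linear_combination (RatFunc.X - RatFunc.C p) ^ 6 * e2
    obtain ⟨b, hb⟩ : ∃ b, Val p (Dt W) b := ⟨_, hDreg p W hWa.1, rfl⟩
    have hl : Val p (((RatFunc.X - RatFunc.C p) * Dt W - 2 * W) ^ 2 * wei j j RatFunc.X)
        ((0 * b - 2 * a) ^ 2 * (p ^ 3 + j * p + j)) :=
      val_mul h2 (val_pow h2 (val_sub h2 (val_mul h2 (hu p) hb) (val_mul h2 (val_two h2 p) hWa)) 2)
        (hvf p)
    have hr : Val p (RatFunc.C γ * (W ^ 3 + RatFunc.C j * W * (RatFunc.X - RatFunc.C p) ^ 4 +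
          RatFunc.C j * (RatFunc.X - RatFunc.C p) ^ 6)) (γ * (a ^ 3 + j * a * 0 ^ 4 + j * 0 ^ 6)) :=
      val_mul h2 (val_C h2 p γ) (val_add h2 (val_add h2 (val_pow h2 hWa 3)
        (val_mul h2 (val_mul h2 (val_C h2 p j) hWa) (val_pow h2 (hu p) 4)))
        (val_mul h2 (val_C h2 p j) (val_pow h2 (hu p) 6)))
    have he : (0 * b - 2 * a) ^ 2 * (p ^ 3 + j * p + j) =
        γ * (a ^ 3 + j * a * 0 ^ 4 + j * 0 ^ 6) := by
      rw [← hl.2, ← hr.2, hid]
    rw [eq_div_iff hγ]
    have h6 : a ^ 2 * (a * γ - 4 * (p ^ 3 + j * p + j)) = 0 := by linear_combination - he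
    rcases mul_eq_zero.1 h6 with h | h
    · exact absurd h (pow_ne_zero _ ha0)
    · linear_combination h
  · intro p hp hfp hfp'
    have hF : wei j j RatFunc.X = (RatFunc.X - RatFunc.C p) *
        (RatFunc.X ^ 2 + RatFunc.C p * RatFunc.X + RatFunc.C (p ^ 2 + j)) := by
      have hj : (RatFunc.C p : RatFunc L) ^ 3 + RatFunc.C j * RatFunc.C p + RatFunc.C j = 0 := by
        rw [← map_pow, ← map_mul, ← map_add, ← map_add, hfp, map_zero]
      unfold wei
      rw [map_add, map_pow]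
      linear_combination hj
    have hvF : Val p (RatFunc.X ^ 2 + RatFunc.C p * RatFunc.X + RatFunc.C (p ^ 2 + j))
        (p ^ 2 + p * p + (p ^ 2 + j)) :=
      val_add h2 (val_add h2 (val_pow h2 (val_X h2 p) 2) (val_mul h2 (val_C h2 p p) (val_X h2 p)))
        (val_C h2 p _)
    have hFu := val_unit h2 hvF (by
      intro h
      apply hfp'
      linear_combination h)
    have hf0 : wei j j RatFunc.X ≠ (0 : RatFunc L) := by
      rw [hF]; exact mul_ne_zero (hu0 p) hFu.1
    have hfo : ord p (wei j j RatFunc.X) = 1 := by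
      rw [hF, (h1 L p).2.1 _ _ (hu0 p) hFu.1, huo, hFu.2]
      norm_num
    have ho : ord p w = -1 := by rw [key p hp hf0, hfo]; norm_num
    set W := (RatFunc.X - RatFunc.C p) * w with hW
    have hW0 : W ≠ 0 := mul_ne_zero (hu0 p) hw0
    have hWo : ord p W = 0 := by
      rw [hW, (h1 L p).2.1 _ _ (hu0 p) hw0, huo, ho]
      norm_num
    obtain ⟨a, ha0, hWa⟩ := unit_val h2 hW0 hWo
    refine ⟨ho, hWa.1, ?_⟩
    rw [hWa.2]
    have hDW : Dt W = (RatFunc.X - RatFunc.C p) * Dt w + w := by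
      rw [hW, Derivation.leibniz, hDu]
      simp only [smul_eq_mul]
      ring
    have hid : ((RatFunc.X - RatFunc.C p) * Dt W - W) ^ 2 *
        (RatFunc.X ^ 2 + RatFunc.C p * RatFunc.X + RatFunc.C (p ^ 2 + j)) =
        RatFunc.C γ * (W ^ 3 + RatFunc.C j * W * (RatFunc.X - RatFunc.C p) ^ 2 +
          RatFunc.C j * (RatFunc.X - RatFunc.C p) ^ 3) := by
      have e1 : (RatFunc.X - RatFunc.C p) * Dt W - W =
          (RatFunc.X - RatFunc.C p) ^ 2 * Dt w := by
        rw [hDW, hW]; ring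
      rw [e1, hW]
      have e2 := hrel
      rw [show wei j j w = w ^ 3 + RatFunc.C j * w + RatFunc.C j from rfl, hF] at e2
      linear_combination (RatFunc.X - RatFunc.C p) ^ 3 * e2
    obtain ⟨b, hb⟩ : ∃ b, Val p (Dt W) b := ⟨_, hDreg p W hWa.1, rfl⟩
    have hl : Val p (((RatFunc.X - RatFunc.C p) * Dt W - W) ^ 2 *
        (RatFunc.X ^ 2 + RatFunc.C p * RatFunc.X + RatFunc.C (p ^ 2 + j)))
        ((0 * b - a) ^ 2 * (p ^ 2 + p * p + (p ^ 2 + j))) :=
      val_mul h2 (val_pow h2 (val_sub h2 (val_mul h2 (hu p) hb) hWa) 2) hvF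
    have hr : Val p (RatFunc.C γ * (W ^ 3 + RatFunc.C j * W * (RatFunc.X - RatFunc.C p) ^ 2 +
          RatFunc.C j * (RatFunc.X - RatFunc.C p) ^ 3)) (γ * (a ^ 3 + j * a * 0 ^ 2 + j * 0 ^ 3)) :=
      val_mul h2 (val_C h2 p γ) (val_add h2 (val_add h2 (val_pow h2 hWa 3)
        (val_mul h2 (val_mul h2 (val_C h2 p j) hWa) (val_pow h2 (hu p) 2)))
        (val_mul h2 (val_C h2 p j) (val_pow h2 (hu p) 3)))
    have he : (0 * b - a) ^ 2 * (p ^ 2 + p * p + (p ^ 2 + j)) =
        γ * (a ^ 3 + j * a * 0 ^ 2 + j * 0 ^ 3) := by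
      rw [← hl.2, ← hr.2, hid]
    rw [eq_div_iff hγ]
    have h6 : a ^ 2 * (a * γ - (3 * p ^ 2 + j)) = 0 := by linear_combination - he
    rcases mul_eq_zero.1 h6 with h | h
    · exact absurd h (pow_ne_zero _ ha0)
    · linear_combination h
  · intro hn
    have hlt : w.denom.natDegree < w.num.natDegree := by
      unfold RatFunc.intDegree at hn
      omega
    set P := w.num with hP
    set Q := w.denom with hQ
    have hQm : Q.Monic := RatFunc.monic_denom w
    have hinj : Function.Injective (algebraMap L[X] (RatFunc L)) := RatFunc.algebraMap_injective L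
    have hq0 : algebraMap L[X] (RatFunc L) Q ≠ 0 := by
      rw [Ne, map_eq_zero_iff _ hinj]
      exact hQm.ne_zero
    have hwPQ : w * algebraMap L[X] (RatFunc L) Q = algebraMap L[X] (RatFunc L) P := by
      have := RatFunc.num_div_denom w
      rw [← hP, ← hQ, div_eq_iff hq0] at this
      exact this.symm
    have hD : Dt w * algebraMap L[X] (RatFunc L) Q ^ 2 =
        algebraMap L[X] (RatFunc L) (derivative P * Q - P * derivative Q) := by
      have e := congrArg Dt hwPQ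
      rw [Derivation.leibniz, Dt_poly Dt hO, Dt_poly Dt hO] at e
      simp only [smul_eq_mul] at e
      rw [map_sub, map_mul, map_mul]
      linear_combination algebraMap L[X] (RatFunc L) Q * e +
        algebraMap L[X] (RatFunc L) (derivative Q) * (-1) * hwPQ
    have hpoly : (derivative P * Q - P * derivative Q) ^ 2 * (X ^ 3 + C j * X + C j) =
        C γ * (Q * (P ^ 3 + C j * P * Q ^ 2 + C j * Q ^ 3)) := by
      apply hinj
      rw [map_mul, map_pow, ← hD]
      simp only [map_mul, map_add, map_pow, RatFunc.algebraMap_C, RatFunc.algebraMap_X, ← hwPQ]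
      unfold wei at hrel
      linear_combination (algebraMap L[X] (RatFunc L) Q) ^ 4 * hrel
    have := poly_part P Q j γ hγ hQm hlt hpoly
    refine ⟨?_, this.2⟩
    unfold RatFunc.intDegree
    rw [← hP, ← hQ, this.1]
    push_cast
    ring

end Pool.Agent.Helper44.RK
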